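import Mathlib
import Pool.Agent.H16.Star4

set_option autoImplicit false

namespace Pool.Agent.Results.MP_ff0133_co.Yes

open H16.Pseudo H16.Star

theorem result : ∃ D : Fin 9 → Fin 9 → Prop, (∀ u, ¬ D u u) ∧ Planar (SimpleGraph.fromRel D) ∧
    IsLeast {m | 1 ≤ m ∧ HasCycle D m} 4 ∧ IsLeast (Ratios D) (3 / 2) :=
  H16.Star.main4

end Pool.Agent.Results.MP_ff0133_co.Yes
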